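import Pool.Agent.H13.RE.StepA

/-!
# R-equivalence on complete intersections of low degree over `C₁` fields
-/

set_option autoImplicit false

namespace Pool.Agent.Results.MP_b5db37_ag.LowDegreeR

open MvPolynomial

universe u

/-- The `C₁` property for systems: forms `f₁, …, f_r` of degrees `d_i ≥ 1` in more than `∑ d_i`
variables have a common nontrivial zero. -/
def SystemC1 (k : Type u) [Field k] : Prop :=
  ∀ (N r : ℕ) (d : Fin r → ℕ) (f : Fin r → MvPolynomial (Fin N) k),
    (∀ i, 1 ≤ d i) → (∀ i, (f i).IsHomogeneous (d i)) → ∑ i, d i < N →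
    ∃ x : Fin N → k, x ≠ 0 ∧ ∀ i, eval x (f i) = 0

/-- The `k`-points of the subscheme `X` of projective space defined by the forms `f i`. -/
def Points {k : Type u} [Field k] {n r : ℕ} (f : Fin r → MvPolynomial (Fin (n + 1)) k) :
    Set (Projectivization k (Fin (n + 1) → k)) :=
  {p | ∀ i, eval p.rep (f i) = 0}

/-- `p` and `q` are directly R-linked: there is a rational map from the projective line to `X`,
given by polynomials `c_j(T)` on which all `f i` vanish identically, defined at two parameters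
`s, t` of the line with images `p` and `q`. -/
def DirectlyLinked {k : Type u} [Field k] {n r : ℕ}
    (f : Fin r → MvPolynomial (Fin (n + 1)) k) (p q : Points f) : Prop :=
  ∃ c : Fin (n + 1) → Polynomial k, (∀ i, aeval c (f i) = 0) ∧
    ∃ (s t : k) (hs : (fun j => (c j).eval s) ≠ 0) (ht : (fun j => (c j).eval t) ≠ 0),
      Projectivization.mk k _ hs = p.1 ∧ Projectivization.mk k _ ht = q.1

open H13.RE

lemma eval_smul_form {k : Type u} [Field k] {N d : ℕ} {F : MvPolynomial (Fin N) k}
    (hF : F.IsHomogeneous d) (c : k) (v : Fin N → k) : eval (c • v) F = c ^ d * eval v F := by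
  have h := pol_spec' hF 0 0 c v
  rw [smul_zero, zero_add, Finset.sum_eq_single d] at h
  · rw [h, pol_top hF]
    simp
  · intro i hi hi2
    rw [Finset.mem_range] at hi
    rw [zero_pow (by omega)]
    ring
  · intro h0
    exact absurd (Finset.mem_range.mpr (Nat.lt_succ_self _)) h0

section

variable {k : Type u} [Field k] {n r : ℕ} {d : Fin r → ℕ}
  {f : Fin r → MvPolynomial (Fin (n + 1)) k} (hf : ∀ i, (f i).IsHomogeneous (d i))
  {S : Sys k (n + 1)} (hS : ∀ p, p ∈ S ↔ ∃ i, p = (d i, f i))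

include hS in
lemma isPt_iff (x : Fin (n + 1) → k) : IsPt S x ↔ x ≠ 0 ∧ ∀ i, eval x (f i) = 0 := by
  unfold IsPt
  refine and_congr Iff.rfl ⟨fun h i => h _ ((hS _).mpr ⟨i, rfl⟩), fun h p hp => ?_⟩
  obtain ⟨i, rfl⟩ := (hS p).mp hp
  exact h i

include hf hS in
lemma mem_points {x : Fin (n + 1) → k} (hx : IsPt S x) :
    Projectivization.mk k x hx.1 ∈ Points f := by
  intro i
  obtain ⟨a, ha⟩ := Projectivization.exists_smul_eq_mk_rep k x hx.1
  rw [← ha]
  have h := ((isPt_iff hS x).mp hx).2 i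
  have h2 := eval_smul_form (hf i) (a : k) x
  rw [h, mul_zero] at h2
  exact h2

/-- the point of `X` given by a vector -/
noncomputable def toPt (x : Fin (n + 1) → k) (hx : IsPt S x) : Points f :=
  ⟨Projectivization.mk k x hx.1, mem_points hf hS hx⟩

lemma link_toPt {a b : Fin (n + 1) → k} (ha : IsPt S a) (hb : IsPt S b) (h : Link S a b) :
    DirectlyLinked f (toPt hf hS a ha) (toPt hf hS b hb) := by
  obtain ⟨c, hc, ⟨s, hs0, hs⟩, ⟨t, ht0, ht⟩⟩ := h
  have h0 : (fun j => (c j).eval 0) ≠ 0 := by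
    rw [hs]
    exact smul_ne_zero hs0 ha.1
  have h1 : (fun j => (c j).eval 1) ≠ 0 := by
    rw [ht]
    exact smul_ne_zero ht0 hb.1
  have hc' : ∀ i, aeval c (f i) = 0 := fun i => hc (d i, f i) ((hS _).mpr ⟨i, rfl⟩)
  refine ⟨c, hc', 0, 1, h0, h1, ?_, ?_⟩
  · show Projectivization.mk k _ h0 = Projectivization.mk k a ha.1
    exact (Projectivization.mk_eq_mk_iff' k _ _ h0 ha.1).mpr ⟨s, hs.symm⟩
  · show Projectivization.mk k _ h1 = Projectivization.mk k b hb.1
    exact (Projectivization.mk_eq_mk_iff' k _ _ h1 hb.1).mpr ⟨t, ht.symm⟩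

lemma req_iff {x y : Fin (n + 1) → k} (h : REq S x y) : IsPt S x ↔ IsPt S y := by
  unfold REq at h
  induction h with
  | rel a b hab => exact ⟨fun _ => hab.2.1, fun _ => hab.1⟩
  | refl a => exact Iff.rfl
  | symm a b _ ih => exact ih.symm
  | trans a b c _ _ ih1 ih2 => exact ih1.trans ih2

lemma req_points {x y : Fin (n + 1) → k} (h : REq S x y) :
    ∀ (hx : IsPt S x) (hy : IsPt S y),
      Relation.EqvGen (DirectlyLinked f) (toPt hf hS x hx) (toPt hf hS y hy) := by
  unfold REq at h
  induction h with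
  | rel a b hab =>
    intro hx hy
    exact Relation.EqvGen.rel _ _ (link_toPt hf hS hx hy hab.2.2)
  | refl a =>
    intro hx hy
    exact Relation.EqvGen.refl _
  | symm a b _ ih =>
    intro hx hy
    exact Relation.EqvGen.symm _ _ (ih hy hx)
  | trans a b c hab _ ih1 ih2 =>
    intro hx hy
    have hb : IsPt S b := (req_iff hab).mp hx
    exact Relation.EqvGen.trans _ _ _ (ih1 hx hb) (ih2 hb hy)

end

/-- R-equivalence is trivial on complete intersections of low degree over a `C₁` field. -/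
theorem result (k : Type u) [Field k] (hk : SystemC1 k) (n r : ℕ) (d : Fin r → ℕ)
    (f : Fin r → MvPolynomial (Fin (n + 1)) k) (hd : ∀ i, 1 ≤ d i)
    (hf : ∀ i, (f i).IsHomogeneous (d i)) (i₀ : Fin r) (h₀ : 2 ≤ d i₀)
    (hA : ∑ i ∈ Finset.univ.erase i₀, d i ^ 2 + (d i₀ - 1) ^ 2 + 1 ≤ n)
    (hB : ∑ i ∈ Finset.univ.erase i₀, (d i + 2).choose 3 + (d i₀).choose 3 + d i₀ ≤ n) :
    ∀ p q : Points f, Relation.EqvGen (DirectlyLinked f) p q := by
  intro p q
  set L0 : Sys k (n + 1) := (Finset.univ.erase i₀).toList.map (fun i => (d i, f i)) with hL0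
  have hS : ∀ p, p ∈ L0 ++ [(d i₀, f i₀)] ↔ ∃ i, p = (d i, f i) := by
    intro p
    rw [List.mem_append, List.mem_singleton, hL0, List.mem_map]
    constructor
    · rintro (⟨i, _, rfl⟩ | rfl)
      · exact ⟨i, rfl⟩
      · exact ⟨i₀, rfl⟩
    · rintro ⟨i, rfl⟩
      by_cases hi : i = i₀
      · right
        rw [hi]
      · left
        exact ⟨i, by simp [hi], rfl⟩
  have hok : Ok L0 := by
    intro p hp
    obtain ⟨i, _, rfl⟩ := List.mem_map.mp hp
    exact ⟨hd i, hf i⟩
  have hpt : ∀ p : Points f, IsPt (L0 ++ [(d i₀, f i₀)]) p.1.rep := fun p =>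
    (isPt_iff hS _).mpr ⟨p.1.rep_nonzero, p.2⟩
  have h := main_vec (show C1Sys k from hk) hok h₀ (hf i₀) (P := p.1.rep) (Q := q.1.rep)
    (by
      rw [hL0, List.map_map]
      show ((Finset.univ.erase i₀).toList.map (fun i => d i ^ 2)).sum + _ + _ < _
      rw [Finset.sum_map_toList]
      omega) (by
      rw [hL0, List.map_map]
      show ((Finset.univ.erase i₀).toList.map (fun i => (d i + 2).choose 3)).sum + _ + _ + _ < _
      rw [Finset.sum_map_toList]
      omega) (hpt p) (hpt q)
  have h2 := req_points hf hS h (hpt p) (hpt q)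
  have e : ∀ p : Points f, toPt hf hS p.1.rep (hpt p) = p := fun p =>
    Subtype.ext (Projectivization.mk_rep p.1)
  rw [e p, e q] at h2
  exact h2

end Pool.Agent.Results.MP_b5db37_ag.LowDegreeR
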