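import Pool.Agent.H13.RE.LemE

/-!
# Zero-cycles on complete intersections of low degree over `C₁` fields

The definitions of zero-cycles and rational equivalence are in `Pool/Agent/H13/RE/CycleDefs.lean`.
-/

set_option autoImplicit false

namespace Pool.Agent.Results.MP_b5db37_ag.ZeroCycles

open MvPolynomial H13.RE

universe u

/-- The `C₁` property for systems: forms `f₁, …, f_r` of degrees `d_i ≥ 1` in more than `∑ d_i`
variables have a common nontrivial zero. -/
def SystemC1 (k : Type u) [Field k] : Prop :=
  ∀ (N r : ℕ) (d : Fin r → ℕ) (f : Fin r → MvPolynomial (Fin N) k),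
    (∀ i, 1 ≤ d i) → (∀ i, (f i).IsHomogeneous (d i)) → ∑ i, d i < N →
    ∃ x : Fin N → k, x ≠ 0 ∧ ∀ i, eval x (f i) = 0

/-- degree of a cycle -/
noncomputable def deg {α : Type*} : (α →₀ ℤ) →+ ℤ :=
  Finsupp.liftAddHom fun _ => AddMonoidHom.id ℤ

lemma deg_eq {α : Type*} (z : α →₀ ℤ) : deg z = z.sum fun _ a => a := rfl

lemma deg_pt {k : Type u} [Field k] {n : ℕ} (E : IntermediateField k (AlgebraicClosure k))
    [FiniteDimensional k E] (P : Fin (n + 1) → E) (hP : P ≠ 0) :
    deg (pt E P hP) = Fintype.card (E →ₐ[k] AlgebraicClosure k) := by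
  unfold pt
  rw [map_sum]
  have : ∀ (q : PP (AlgebraicClosure k) n), deg (Finsupp.single q (1 : ℤ)) = 1 := by
    intro q
    rw [deg, Finsupp.liftAddHom_apply_single]
    rfl
  simp only [this]
  rw [Finset.sum_const, Finset.card_univ, nsmul_eq_mul, mul_one]

/-- Every zero-cycle of degree `0` on a complete intersection of low degree over a `C₁` field is
rationally equivalent to `0`. -/
theorem result (k : Type u) [Field k] (hk : SystemC1 k) (n r : ℕ) (d : Fin r → ℕ)
    (f : Fin r → MvPolynomial (Fin (n + 1)) k) (hd : ∀ i, 1 ≤ d i)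
    (hf : ∀ i, (f i).IsHomogeneous (d i)) (i₀ : Fin r) (h₀ : 2 ≤ d i₀)
    (hA : ∑ i ∈ Finset.univ.erase i₀, d i ^ 2 + (d i₀ - 1) ^ 2 + 1 ≤ n)
    (hB : ∑ i ∈ Finset.univ.erase i₀, (d i + 2).choose 3 + (d i₀).choose 2 + 1 ≤ n) :
    ∀ z ∈ Cycles f, z.sum (fun _ a => a) = 0 → z ∈ Rat f := by
  have hk' : C1Sys k := hk
  -- a base point
  have hsum : ∑ i, d i < n + 1 := by
    have h1 : ∑ i, d i = ∑ i ∈ Finset.univ.erase i₀, d i + d i₀ := by
      rw [← Finset.sum_erase_add _ _ (Finset.mem_univ i₀)]
    have h2 : ∑ i ∈ Finset.univ.erase i₀, d i ≤ ∑ i ∈ Finset.univ.erase i₀, d i ^ 2 :=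
      Finset.sum_le_sum fun i _ => Nat.le_self_pow (by norm_num) _
    have h3 : d i₀ ≤ (d i₀ - 1) ^ 2 + 1 := by
      obtain ⟨m, hm⟩ : ∃ m, d i₀ = m + 2 := ⟨d i₀ - 2, by omega⟩
      rw [hm, show m + 2 - 1 = m + 1 by omega]
      nlinarith
    omega
  obtain ⟨y, hy0, hy⟩ := hk (n + 1) r d f hd hf hsum
  have hyK : (fun j => algebraMap k (AlgebraicClosure k) (y j)) ≠ 0 := by
    intro h
    apply hy0
    funext j
    apply (algebraMap k (AlgebraicClosure k)).injective
    exact (congrFun h j).trans (map_zero (algebraMap k (AlgebraicClosure k))).symm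
  set q₀ : PP (AlgebraicClosure k) n := Projectivization.mk _ _ hyK with hq₀
  -- every point is equivalent to a multiple of the base point
  have key : ∀ z ∈ Cycles f, z - deg z • Finsupp.single q₀ (1 : ℤ) ∈ Rat f := by
    intro z hz
    unfold Cycles at hz
    induction hz using AddSubgroup.closure_induction with
    | mem z hz =>
      obtain ⟨E, hE, P, hP0, hP, rfl⟩ := hz
      have hS : C1Sys E := c1_ext hk'
      have hyE : (fun j => algebraMap k E (y j)) ≠ 0 := by
        intro h
        apply hy0
        funext j
        apply (algebraMap k E).injective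
        exact (congrFun h j).trans (map_zero (algebraMap k E)).symm
      have e1 : deg (pt E P hP0) • Finsupp.single q₀ (1 : ℤ) =
          pt E (fun j => algebraMap k E (y j)) hyE := by
        rw [deg_pt]
        unfold pt
        rw [natCast_zsmul, ← Finset.card_univ, ← Finset.sum_const]
        refine Finset.sum_congr rfl fun σ _ => ?_
        congr 1
        rw [hq₀]
        refine (Projectivization.mk_eq_mk_iff' _ _ _ _ _).mpr ⟨1, ?_⟩
        rw [one_smul]
        funext j
        exact σ.commutes (y j)
      rw [e1]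
      set L0 : Sys E (n + 1) := (Finset.univ.erase i₀).toList.map
        (fun i => (d i, MvPolynomial.map (algebraMap k E) (f i))) with hL0
      have hok : Ok L0 := by
        intro p hp
        obtain ⟨i, _, rfl⟩ := List.mem_map.mp hp
        exact ⟨hd i, (hf i).map _⟩
      have hzero : ∀ (x : Fin (n + 1) → E), (∀ i, aeval x (f i) = 0) →
          ∀ i, eval x (MvPolynomial.map (algebraMap k E) (f i)) = 0 := by
        intro x hx i
        have := hx i
        rw [← MvPolynomial.aeval_map_algebraMap E x (f i), aeval_eq_eval] at this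
        exact this
      have hzL : ∀ (x : Fin (n + 1) → E), (∀ i, aeval x (f i) = 0) → ∀ p ∈ L0,
          eval x p.2 = 0 := by
        intro x hx p hp
        obtain ⟨i, _, rfl⟩ := List.mem_map.mp hp
        exact hzero x hx i
      have hyz : ∀ i, aeval (fun j => algebraMap k E (y j)) (f i) = 0 := by
        intro i
        have h1 := MvPolynomial.aeval_algebraMap_apply E y (f i)
        rw [aeval_eq_eval, hy i, map_zero] at h1
        exact h1
      apply lemE hS hok h₀ ((hf i₀).map _) (G := MvPolynomial.map (algebraMap k E) (f i₀)) _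
        hP0 hyE (hzL P hP) (hzero P hP i₀) (hzL _ hyz) (hzero _ hyz i₀)
      · rw [hL0, List.map_map]
        show ((Finset.univ.erase i₀).toList.map (fun i => d i ^ 2)).sum + _ + _ < _
        rw [Finset.sum_map_toList]
        omega
      · rw [hL0, List.map_map]
        show ((Finset.univ.erase i₀).toList.map (fun i => (d i + 2).choose 3)).sum + _ + _ < _
        rw [Finset.sum_map_toList]
        omega
      · intro i
        by_cases hi : i = i₀
        · left
          rw [hi]
        · right
          refine ⟨(d i, MvPolynomial.map (algebraMap k E) (f i)), ?_, rfl⟩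
          rw [hL0, List.mem_map]
          exact ⟨i, by simp [hi], rfl⟩
    | zero =>
      rw [map_zero, zero_smul, sub_zero]
      exact (Rat f).zero_mem
    | add x y _ _ hx hy =>
      have := (Rat f).add_mem hx hy
      rw [map_add, add_smul]
      convert this using 1
      abel
    | neg x _ hx =>
      have := (Rat f).neg_mem hx
      rw [map_neg, neg_smul]
      convert this using 1
      abel
  intro z hz h0
  have := key z hz
  rw [deg_eq, h0, zero_smul, sub_zero] at this
  exact this

end Pool.Agent.Results.MP_b5db37_ag.ZeroCycles
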